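import Pool.Agent.W813.NC.Stm

/-! Project NC (owner helper813): even and odd idempotents are orthogonal for the trace form. -/

set_option autoImplicit false
set_option linter.unusedSectionVars false

open CategoryTheory Limits MonoidalCategory

namespace Pool.Agent.W351.NC

open Pool.Agent.W492.MT (tpow tr)
open Pool.Agent.W492.KC (swp gins gsym EvenFin OddFin)
open Pool.Agent.W239.KC (rpt tr_cyc)
open Pool.Agent.W813.NC

universe v u

variable (T : Type u) [Category.{v} T] [MonoidalCategory T] [SymmetricCategory T]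
  [Preadditive T] [MonoidalPreadditive T] [RightRigidCategory T] [IsIdempotentComplete T]
  (F : Type) [Field F] [CharZero F] [Linear F T]

theorem num (h1 : S_TRE T F) (h2 : S_SPL T) : S_NUM T F := by
  intro hF N p q hp hq a b ha hb
  obtain ⟨A, i, e, hie, hei⟩ := IsIdempotentComplete.idempotents_split N p hp
  obtain ⟨B, i', e', hie', hei'⟩ := IsIdempotentComplete.idempotents_split N q hq
  have hA : gsym (-1) A a = 0 := (h2 A N i e hie (-1) a).2 (by rw [hei]; exact ha)
  have hB : gsym 1 B b = 0 := (h2 B N i' e' hie' 1 b).2 (by rw [hei']; exact hb)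
  constructor
  · intro s
    have h3 := h1 hF A B a b hA hB (i ≫ e') (i' ≫ s ≫ e)
    have h4 : tr (p ≫ q ≫ s) = tr ((i ≫ e') ≫ (i' ≫ s ≫ e)) := by
      rw [← hei, ← hei']
      have h5 := tr_cyc e (i ≫ (e' ≫ i') ≫ s)
      simp only [Category.assoc] at h5 ⊢
      exact h5
    rw [h4, h3]
  · intro s
    have h3 := h1 hF A B a b hA hB (i ≫ s ≫ e') (i' ≫ e)
    have h4 : tr (q ≫ p ≫ s) = tr ((i ≫ s ≫ e') ≫ (i' ≫ e)) := by
      rw [← hei, ← hei']
      have h5 := tr_cyc (e' ≫ i' ≫ e) (i ≫ s)
      simp only [Category.assoc] at h5 ⊢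
      exact h5
    rw [h4, h3]

end Pool.Agent.W351.NC
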